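import Pool.Agent.U586.HV.Cor

/-!
# Derived invariance of Hodge numbers: one value of the Hodge polynomial decides

Let `V` be a class of smooth projective complex varieties which is closed under products and contains
with `A` the variety `cyc A = (A ^ ℓ × E) / (ℤ/ℓ)` (`ℓ` an odd prime; the cyclic group permutes the
factors and acts by a translation on the elliptic curve `E`), for example the class of all varieties.
For real numbers `x, y ≥ 0` let `h_A(x, y) = ∑ h^{p,q}(A) x^p y^q`.

If `h_A(x, y) ≤ e^{o(n)} h_B(x, y)` for derived equivalent `A`, `B` of dimension `n`, then the powers of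
`A`, `B` give `h_A(x, y) = h_B(x, y)`.  The formula

`ℓ · h_{cyc A}(x, y) = (h_A(x, y) ^ ℓ + (ℓ - 1) h_A(x ^ ℓ, y ^ ℓ)) (1 + x) (1 + y)`

gives from this the equality at `(x ^ ℓ, y ^ ℓ)` for all derived equivalent `A`, `B`, hence at the points
`(x ^ (ℓ ^ k), y ^ (ℓ ^ k))` for all `k`.  Looking at the largest value of `x^p y^q` one finds, step by
step, that the sums of the `h^{p,q}` over the classes `x^p y^q = v` are derived invariants.
-/

set_option autoImplicit false

namespace Pool.Agent.Results.MP_b4fe5e_ag.OneValue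

open Pool.Agent.U152.HN Pool.Agent.U586.HV

universe u

/-- **Theorem.** -/
theorem result (ℓ : ℕ) (hℓ : ℓ.Prime) (h2 : ℓ ≠ 2) (T : PowerClass.{u} ℓ) :
    (∀ x y : ℝ, 0 ≤ x → 0 ≤ y →
      List.TFAE [ValueComparable T.toHodgeData x y, ValueInvariant T.toHodgeData x y,
        ClassSumsInvariant T.toHodgeData x y]) ∧
    (∀ x y : ℝ, 0 < x → 0 < y →
      (∀ p q p' q' : ℕ, x ^ p * y ^ q = x ^ p' * y ^ q' → p = p' ∧ q = q') →
      (T.Invariant ↔ ValueComparable T.toHodgeData x y)) ∧
    (T.Invariant ↔ ValueComparable T.toHodgeData 2 3) ∧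
    (∀ x : ℝ, 0 < x → x ≠ 1 → (T.BettiInvariant ↔ ValueComparable T.toHodgeData x x)) ∧
    (∀ y : ℝ, 0 < y → y ≠ 1 → (T.RowInvariant ↔ ValueComparable T.toHodgeData 0 y)) :=
  ⟨fun _ _ hx hy => tfae T hℓ h2 hx hy, fun _ _ hx hy hxy => q1 T hℓ h2 hx hy hxy,
    q1 T hℓ h2 two_pos three_pos two_three, fun _ hx hx1 => betti T hℓ h2 hx hx1,
    fun _ hy hy1 => row T hℓ h2 hy hy1⟩

end Pool.Agent.Results.MP_b4fe5e_ag.OneValue
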