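import Pool.Agent.U152.HN.Thy

/-!
# Derived invariance of Hodge numbers: the parity of one Hodge number decides

For a smooth projective complex variety `A` and a prime number `ℓ` let
`cyc A = (A ^ ℓ × E) / (ℤ/ℓ)`, where the cyclic group permutes the factors and acts by translation by
a point of order `ℓ` on the elliptic curve `E`; this is a free action.  If `A` and `B` are derived
equivalent then so are `cyc A` and `cyc B` (the kernel `P ⊠ ... ⊠ P ⊠ O_Δ` is equivariant; Ploog), and
the Hodge polynomial of `cyc A` is the one of the invariants of the cohomology of `A ^ ℓ × E`: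

`ℓ · h(cyc A) = (h(A)(x, y) ^ ℓ + (ℓ - 1) h(A)(± x ^ ℓ, ± y ^ ℓ)) (1 + x) (1 + y)`, sign `(-1)^(ℓ-1)`.

The division by `ℓ` turns congruences modulo `ℓ ^ (k + 1)` for `cyc A`, `cyc B` into congruences
modulo `ℓ ^ (k + 2)` for `A`, `B`:

1. In every class of varieties with this construction (all varieties, varieties with torsion
   canonical class, ...) the Hodge numbers are derived invariants as soon as their residues modulo ONE
   prime number are; the same for the numbers `h^{0,q}` alone and for the Betti numbers alone.
2. For all varieties (products with the projective line and with an elliptic curve are used) ONE Hodge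
   number in every second (large) dimension is enough: for any fixed `c, d ≥ 1`, any `N` and any
   modulus `M ≥ 2`, Q1 holds iff `h^{p,q}` modulo `M`, `p + q = n + c`, `p - q = d`, `n ≥ N`, is a
   derived invariant.  For `c = d = 1`, `M = 2`: iff the parity of `h^{m-1,m}` of the varieties of
   dimension `2 m` is a derived invariant.
3. The numbers `h^{0,q}` are derived invariants iff the number `h^{0,m}` modulo `M` of the varieties
   of dimension `2 m` is one.
4. On the line `c = 0` the parities ARE derived invariants (a consequence of the known invariance of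
   the sums over `p - q = i`).
-/

namespace Pool.Agent.Results.MP_b4fe5e_ag.ParityOfOneHodgeNumber

open Pool.Agent.U152.HN

universe u

/-- **Theorem.** -/
theorem result :
    (∀ (ℓ : ℕ), ℓ.Prime → ∀ T : CyclicClass.{u} ℓ,
      (T.Invariant ↔ T.InvariantMod ℓ) ∧ (T.RowInvariant ↔ T.RowInvariantMod ℓ) ∧
      (T.BettiInvariant ↔ T.BettiInvariantMod ℓ)) ∧
    (∀ (T : AllVarieties.{u}) (M c d N : ℕ), 2 ≤ M → 1 ≤ c → 1 ≤ d →
      (T.Invariant ↔ T.OneNumberMod c d N M)) ∧
    (∀ (T : AllVarieties.{u}) (M N : ℕ), 2 ≤ M → (T.RowInvariant ↔ T.OneRowNumberMod N M)) ∧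
    (∀ (T : AllVarieties.{u}) (A B : T.V), T.Deq A B → ∀ p q, p + q = T.dim A →
      T.h A p q ≡ T.h B p q [MOD 2]) :=
  ⟨fun _ hℓ T => ⟨T.full hℓ, T.row hℓ, T.bettiNumbers hℓ⟩,
    fun T M c d N hM hc hd => T.one M hM c d N hc hd,
    fun T M N hM => T.oneRow M hM N,
    fun T A B h p q hpq => T.middle A B h p q hpq⟩

end Pool.Agent.Results.MP_b4fe5e_ag.ParityOfOneHodgeNumber
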