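import Pool.Agent.U233.DT.Sums

/-!
# Derived invariance of Hodge numbers: inertia relations for perverse Hodge numbers

Let `X`, `Y` be smooth projective complex varieties of dimension `n` with `D(X) ≃ D(Y)`; `KRing` is
the Hodge theory of `X` (with an ample class `ω`) and `FM` the induced isomorphism of cohomology
(real, graded by `p - q`, isometric for the Mukai pairings).  It commutes with the first Chern
classes, because an equivalence commutes with the Serre functors.  Suppose that it commutes with the
pull-backs `L = f^* A`, `L' = g^* A` of an ample class under morphisms `f : X → B`, `g : Y → B`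
(without any condition on the fibres): this holds for

* equivalences which are linear over `B` (relative Fourier-Mukai transforms);
* all equivalences, if the canonical classes are semiample (or anti-semiample), `L = ± K` and `f`, `g`
  are the pluricanonical morphisms (the canonical ring is a derived invariant).

`RelHR` is then a theorem of de Cataldo and Migliorini (the relative Hodge-Riemann bilinear
relations), and `prim X L κ p q` is the Hodge number `(p, q)` of the primitive part
`P^{-κ}(B, pH^u)` of the cohomology of `B` with values in the perverse sheaf `pH^u (Rf_* ℂ [n])`,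
`u = p + q + κ - n`.  These numbers determine the Hodge numbers of `X`.  The theorem:

* for all `κ` and `i` the sum over `p - q = i` of the numbers `prim κ p q` is the same for `X` and
  `Y`, and if `n - κ + i` is even the same holds for the alternating sum (so the sums over the `u`
  congruent to `0` and over the `u` congruent to `2` modulo `4` are invariants separately);
* hence, if these numbers agree for `u ≤ - 3` then they all agree, and `X` and `Y` have the same
  Hodge numbers: only the perverse sheaves `pH^u` with `u ≤ - 3` can obstruct Q1;
* if the defect of semismallness of `f` and `g` is at most three, it is enough that the spaces of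
  classes of type `(p, q)` killed by `L ^ (κ + 1)`, `p + q + κ + 3 = n`, have the same dimension.  If
  all fibres have dimension three these spaces are the primitive intersection cohomology of `B`, so
  that this holds.

The proof: the signature of the hermitian form `∫ L ^ κ x ȳ` on `⊕_k H^{a+k,b+k}`, `a + b + κ = n`,
is an invariant of the equivalence; recursively in `κ`, it is computed from the relative
Hodge-Riemann relations by maximal semidefinite subspaces.
-/

namespace Pool.Agent.Results.MP_b4fe5e_ag.RelativeInertia

open Pool.Agent.W539.DI Pool.Agent.R929.DH Pool.Agent.U233.DT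

/-- **Theorem.** -/
theorem result {n : ℕ} (X Y : KRing n) (L : X.R) (L' : Y.R) (hX : RelHR X L) (hY : RelHR Y L')
    (Φ : FM X Y) (hc : Intertwines Φ X.c Y.c) (hL : Intertwines Φ L L') :
    (∀ (κ : ℕ) (i : ℤ),
      ∑ m ∈ Finset.range (n + 1), prim X L κ m (m - i) =
        ∑ m ∈ Finset.range (n + 1), prim Y L' κ m (m - i)) ∧
    (∀ (κ : ℕ) (i : ℤ), Even ((n : ℤ) - κ + i) →
      ∑ m ∈ Finset.range (n + 1), (-1 : ℤ) ^ m * prim X L κ m (m - i) =
        ∑ m ∈ Finset.range (n + 1), (-1 : ℤ) ^ m * prim Y L' κ m (m - i)) ∧
    ((∀ (p q : ℤ) (κ : ℕ), p + q + κ + 3 ≤ n → prim X L κ p q = prim Y L' κ p q) →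
      (∀ p q : ℤ, X.h p q = Y.h p q) ∧
        ∀ (κ : ℕ) (p q : ℤ), prim X L κ p q = prim Y L' κ p q) ∧
    (Defect X L 3 → Defect Y L' 3 →
      (∀ (p q : ℤ) (κ : ℕ), p + q + κ + 3 = n →
        Module.finrank ℂ (KK X L κ p q) = Module.finrank ℂ (KK Y L' κ p q)) →
      ∀ p q : ℤ, X.h p q = Y.h p q) :=
  ⟨fun κ i => sums hX hY hL κ i, fun κ i h => alt hX hY hc hL κ i h,
    fun h => main hX hY hc hL h, fun dX dY h => main_three hX hY hc hL dX dY h⟩

end Pool.Agent.Results.MP_b4fe5e_ag.RelativeInertia
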