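import Pool.Agent.U644.DH.Theory

/-!
# Derived invariance of Hodge numbers: a comparison in any small window suffices

`Invariant` is Q1.  `Comparable α β ε` asks much less: for derived equivalent `X`, `Y` of dimension
`n` the inequality `h^{p,q}(X) ≤ C e^{δ n} h^{p,q}(Y)` (for every `δ > 0` with some `C = C(δ)`), and
only for `p / n` close to `α` and `q / n` close to `β`.  The theorem says that both are equivalent,
for any `α`, `β` strictly between `0` and `1` and any `ε > 0`; the same for the numbers `h^{0,q}`
alone and for the Betti numbers alone.  The last part says that on the line `p + q = n` the comparison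
holds (with the factor `n + 1`), so that no neighbourhood of this line can be treated in that way unless
Q1 holds.

The proof takes `X ^ N × E ^ (K N)` with an elliptic curve `E`: for `K` large the Hodge numbers of this
variety, weighted by `exp (u p + v q)`, are concentrated in the window (Chernoff bounds), and
`N → ∞` gives an inequality between the Hodge polynomials of `X` and `Y` on an open set.
-/

namespace Pool.Agent.Results.MP_b4fe5e_ag.WindowComparison

open Pool.Agent.U644.DH

universe u

/-- **Theorem.** -/
theorem result (T : HodgeTheory.{u}) :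
    (∀ α β ε : ℝ, 0 < α → α < 1 → 0 < β → β < 1 → 0 < ε →
      (T.Invariant ↔ T.Comparable α β ε)) ∧
    (∀ β ε : ℝ, 0 < β → β < 1 → 0 < ε → (T.RowInvariant ↔ T.RowComparable β ε)) ∧
    (∀ β ε : ℝ, 0 < β → β < 2 → 0 < ε → (T.BettiInvariant ↔ T.BettiComparable β ε)) ∧
    (∀ X Y : T.V, T.Deq X Y → ∀ p q : ℕ, p + q = T.dim X →
      T.h X p q ≤ (T.dim X + 1) * T.h Y p q) :=
  ⟨fun α β ε h1 h2 h3 h4 h5 => invariant_iff α β ε h1 h2 h3 h4 h5,
    fun β ε h1 h2 h3 => row_iff β ε h1 h2 h3,
    fun β ε h1 h2 h3 => betti_iff β ε h1 h2 h3,
    fun X Y h p q hpq => middle X Y h p q hpq⟩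

end Pool.Agent.Results.MP_b4fe5e_ag.WindowComparison
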